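import Pool.Agent.Helper88.GU.St

/-!
# GU2 module YE: from `REq` to first rows of matrices of determinant one
-/

set_option autoImplicit false

namespace Pool.Agent.Helper72.GU2

open Pool.Agent.Helper91.GU

universe u

/-- the reindexing `Fin (s+2) → Unit ⊕ Fin (s+1)` -/
def eYE (s : ℕ) : Fin (s + 2) ≃ Unit ⊕ Fin (s + 1) where
  toFun := Fin.cases (Sum.inl ()) (fun j => Sum.inr j)
  invFun := Sum.elim (fun _ => 0) (fun j => j.succ)
  left_inv := by
    intro j
    induction j using Fin.cases with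
    | zero => rfl
    | succ j => rfl
  right_inv := by
    rintro (⟨⟩ | j)
    · rfl
    · rfl

theorem hYE : Pool.Agent.Helper88.GU.StYE.{u} := by
  intro A _ s v h
  obtain ⟨g, hg, hv⟩ := h
  have h1 : row (v 0) (fun j : Fin (s + 1) => v j.succ) =
      Matrix.vecMul (row 1 0 : Unit ⊕ Fin (s + 1) → A) g⁻¹ := by
    rw [← hv, Matrix.vecMul_vecMul, Matrix.mul_nonsing_inv g hg, Matrix.vecMul_one]
  have h2 : ∀ j, (g⁻¹) (Sum.inl ()) j = row (v 0) (fun j : Fin (s + 1) => v j.succ) j := by
    intro j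
    rw [h1]
    simp [Matrix.vecMul, dotProduct, row]
  let M₀ : Matrix (Fin (s + 2)) (Fin (s + 2)) A := (g⁻¹).submatrix (eYE s) (eYE s)
  have hM₀ : M₀.det = (g⁻¹).det := Matrix.det_submatrix_equiv_self (eYE s) g⁻¹
  have hdet : g.det * (g⁻¹).det = 1 := by
    rw [← Matrix.det_mul, Matrix.mul_nonsing_inv g hg, Matrix.det_one]
  refine ⟨M₀.updateRow 1 (g.det • M₀ 1), ?_, ?_⟩
  · rw [Matrix.det_updateRow_smul, Matrix.updateRow_eq_self, hM₀, hdet]
  · intro j
    have h01 : (0 : Fin (s + 2)) ≠ 1 := by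
      intro h
      have := congrArg Fin.val h
      simp at this
    rw [Matrix.updateRow_ne h01]
    show (g⁻¹) (Sum.inl ()) (eYE s j) = v j
    rw [h2]
    induction j using Fin.cases with
    | zero => rfl
    | succ j => rfl

end Pool.Agent.Helper72.GU2
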